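import Pool.Agent.ISO.StmtsR
import Mathlib.RingTheory.Filtration

/-! Row KRV of squad ISO, block R (helper52) -/

set_option autoImplicit false

namespace Pool.Agent.ISO.R.H52

open Finset Pool.Agent.Helper6_Mono Pool.Agent.Helper32_OMP Pool.Agent.ISO

/-- the maximal ideal of the origin -/
noncomputable def mI (σ : Type) : Ideal (MvPolynomial σ ℂ) :=
  RingHom.ker (MvPolynomial.constantCoeff : MvPolynomial σ ℂ →+* ℂ)

theorem X_mem (σ : Type) (l : σ) : (MvPolynomial.X l : MvPolynomial σ ℂ) ∈ mI σ := by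
  unfold mI
  rw [RingHom.mem_ker]
  simp

theorem monomial_mem (σ : Type) : ∀ (E : ℕ) (β : σ →₀ ℕ), E ≤ β.degree → ∀ c : ℂ,
    (MvPolynomial.monomial β c : MvPolynomial σ ℂ) ∈ (mI σ) ^ E := by
  classical
  intro E
  induction E with
  | zero =>
    intro β _ c
    rw [pow_zero, Ideal.one_eq_top]
    exact Submodule.mem_top
  | succ E ih =>
    intro β hβ c
    have hne : β ≠ 0 := by
      rintro rfl
      rw [map_zero] at hβ
      omega
    obtain ⟨l, hl⟩ : ∃ l, β l ≠ 0 := by
      by_contra hcon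
      apply hne
      ext l
      by_contra h
      exact hcon ⟨l, h⟩
    have hle : Finsupp.single l 1 ≤ β := by
      rw [Finsupp.single_le_iff]
      omega
    have hsplit : (β - Finsupp.single l 1) + Finsupp.single l 1 = β := tsub_add_cancel_of_le hle
    have hdeg : (β - Finsupp.single l 1).degree + 1 = β.degree := by
      conv_rhs => rw [← hsplit]
      rw [map_add, Finsupp.degree_single]
    have h1 := ih (β - Finsupp.single l 1) (by omega) c
    have h2 : (MvPolynomial.monomial β c : MvPolynomial σ ℂ)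
        = MvPolynomial.monomial (β - Finsupp.single l 1) c * MvPolynomial.X l := by
      unfold MvPolynomial.X
      rw [MvPolynomial.monomial_mul, hsplit, mul_one]
    rw [h2, pow_succ]
    exact Ideal.mul_mem_mul h1 (X_mem σ l)

theorem Mx_le (σ : Type) (E : ℕ) {x : MvPolynomial σ ℂ} (hx : x ∈ Mx ℂ σ E) :
    x ∈ (mI σ) ^ E := by
  rw [MvPolynomial.as_sum x]
  refine Ideal.sum_mem _ fun β hβ => ?_
  refine monomial_mem σ E β ?_ _
  by_contra hcon
  have h1 := hx β (by omega)
  exact (MvPolynomial.mem_support_iff.1 hβ) h1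

theorem krv : KrvStmt := by
  classical
  intro σ _ I J _ _ Q τ hτ
  let N : Submodule (MvPolynomial σ ℂ) (J → MvPolynomial σ ℂ) :=
    Submodule.span (MvPolynomial σ ℂ) (Set.range Q)
  have hQN : ∀ i, Q i ∈ N := fun i => Submodule.subset_span ⟨i, rfl⟩
  have hmem : N.mkQ τ ∈ (⨅ E : ℕ, (mI σ) ^ E • (⊤ : Submodule (MvPolynomial σ ℂ)
      ((J → MvPolynomial σ ℂ) ⧸ N))) := by
    rw [Submodule.mem_iInf]
    intro E
    obtain ⟨a, ha⟩ := hτ E
    have hr : τ - ∑ i, a i • Q i = ∑ j, (τ j - ∑ i, a i * Q i j) •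
        (Pi.single j (1 : MvPolynomial σ ℂ) : J → MvPolynomial σ ℂ) := by
      funext j
      simp only [Pi.sub_apply, Finset.sum_apply, Pi.smul_apply, smul_eq_mul, Pi.single_apply]
      rw [Finset.sum_eq_single j]
      · simp
      · intro b _ hb
        rw [if_neg (Ne.symm hb), mul_zero]
      · intro h
        exact (h (Finset.mem_univ j)).elim
    have h0 : N.mkQ (∑ i, a i • Q i) = 0 := by
      rw [Submodule.mkQ_apply, Submodule.Quotient.mk_eq_zero]
      exact Submodule.sum_mem _ fun i _ => N.smul_mem _ (hQN i)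
    have h1 : N.mkQ τ = ∑ j, (τ j - ∑ i, a i * Q i j) •
        N.mkQ (Pi.single j (1 : MvPolynomial σ ℂ) : J → MvPolynomial σ ℂ) := by
      have h2 : N.mkQ τ = N.mkQ (τ - ∑ i, a i • Q i) := by
        rw [map_sub, h0, sub_zero]
      rw [h2, hr, map_sum]
      refine Finset.sum_congr rfl fun j _ => ?_
      rw [map_smul]
    rw [h1]
    refine Submodule.sum_mem _ fun j _ => ?_
    exact Submodule.smul_mem_smul (Mx_le σ E (ha j)) Submodule.mem_top
  obtain ⟨r, hr⟩ := (Ideal.mem_iInf_smul_pow_eq_bot_iff (mI σ) (N.mkQ τ)).1 hmem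
  have hrI : MvPolynomial.constantCoeff (r : MvPolynomial σ ℂ) = 0 := by
    have := r.2
    unfold mI at this
    rwa [RingHom.mem_ker] at this
  have hN : (1 - (r : MvPolynomial σ ℂ)) • τ ∈ N := by
    rw [← Submodule.Quotient.mk_eq_zero, ← Submodule.mkQ_apply, map_smul, sub_smul, one_smul, hr,
      sub_self]
  obtain ⟨c, hc⟩ := (Submodule.mem_span_range_iff_exists_fun _).1 hN
  refine ⟨1 - (r : MvPolynomial σ ℂ), c, ?_, ?_⟩
  · rw [map_sub, map_one, hrI, sub_zero]
    exact one_ne_zero
  · intro j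
    have := congrFun hc j
    rw [Finset.sum_apply] at this
    simp only [Pi.smul_apply, smul_eq_mul] at this
    exact this.symm

end Pool.Agent.ISO.R.H52
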