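import Pool.Agent.ISO.StmtsZ

/-! Row ZCG of squad ISO, block Z (helper52) -/

set_option autoImplicit false

namespace Pool.Agent.ISO.Z.H52

open PowerSeries Finset Pool.Agent.Helper6_Mono Pool.Agent.Helper32_OMP Pool.Agent.ISO

theorem zcg : ZcgStmt := by
  classical
  intro k _ σ S _ _ P m hP δ hδ j hj
  have hX : ∀ l, (PowerSeries.X : S⟦X⟧) ∣ δ l := by
    intro l
    rw [PowerSeries.X_dvd_iff]
    have := hδ l
    rwa [PowerSeries.coeff_zero_eq_constantCoeff_apply] at this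
  have hdvd : (PowerSeries.X : S⟦X⟧) ^ (m + 1) ∣ MvPolynomial.aeval δ P := by
    rw [MvPolynomial.aeval_def, MvPolynomial.eval₂_eq]
    refine Finset.dvd_sum fun d hd => ?_
    refine Dvd.dvd.mul_left ?_ _
    have hdeg : m + 1 ≤ d.degree := by
      by_contra hcon
      exact (MvPolynomial.mem_support_iff.1 hd) (hP d (by omega))
    have h1 : (PowerSeries.X : S⟦X⟧) ^ d.degree = ∏ i ∈ d.support, (PowerSeries.X : S⟦X⟧) ^ d i := by
      rw [Finset.prod_pow_eq_pow_sum]
      rfl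
    have h2 : (PowerSeries.X : S⟦X⟧) ^ d.degree ∣ ∏ i ∈ d.support, δ i ^ d i := by
      rw [h1]
      exact Finset.prod_dvd_prod_of_dvd _ _ fun i _ => pow_dvd_pow_of_dvd (hX i) _
    exact (pow_dvd_pow _ hdeg).trans h2
  rw [PowerSeries.X_pow_dvd_iff] at hdvd
  exact hdvd j (by omega)

end Pool.Agent.ISO.Z.H52
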